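import Mathlib

set_option linter.unusedSectionVars false

namespace Pool.Agent.Results.MP_12e089_an.Bounded

open Finset
open scoped Classical

/-- The uniform probability measure on a finite set `S`, as a mass function. -/
noncomputable def unif {M : Type} (S : Finset M) (x : M) : ℝ := if x ∈ S then (#S : ℝ)⁻¹ else 0

/-- Wasserstein-1 distance: the infimum of the cost over all couplings. -/
noncomputable def W1 {M : Type} [Fintype M] (ρ : M → M → ℝ) (μ ν : M → ℝ) : ℝ :=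
  sInf {w | ∃ π : M → M → ℝ, (∀ x y, 0 ≤ π x y) ∧ (∀ x, ∑ y, π x y = μ x) ∧
    (∀ y, ∑ x, π x y = ν y) ∧ w = ∑ x, ∑ y, π x y * ρ x y}

/-- The `ℓ_1` metric on the grid. -/
noncomputable def l1 {d Δ : ℕ} (x y : Fin d → Fin Δ) : ℝ := ∑ i, |((x i : ℕ) : ℝ) - (y i : ℕ)|

/-- The `ℓ_2` metric on the grid. -/
noncomputable def l2 {d Δ : ℕ} (x y : Fin d → Fin Δ) : ℝ :=
  √(∑ i, (((x i : ℕ) : ℝ) - (y i : ℕ)) ^ 2)

noncomputable def n1 {ι : Type} [Fintype ι] (v : ι → ℝ) : ℝ := ∑ i, |v i|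

section n1
variable {ι κ : Type} [Fintype ι] [Fintype κ]

lemma n1_nonneg (v : ι → ℝ) : 0 ≤ n1 v := sum_nonneg fun _ _ => abs_nonneg _

lemma n1_zero : n1 (0 : ι → ℝ) = 0 := by simp [n1]

lemma n1_add (u v : ι → ℝ) : n1 (u + v) ≤ n1 u + n1 v := by
  unfold n1
  rw [← sum_add_distrib]
  exact sum_le_sum fun i _ => abs_add_le _ _

lemma n1_neg (u : ι → ℝ) : n1 (-u) = n1 u := by simp [n1]

lemma n1_sub_comm (u v : ι → ℝ) : n1 (u - v) = n1 (v - u) := by
  rw [← n1_neg, neg_sub]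

lemma n1_sub (u v : ι → ℝ) : n1 (u - v) ≤ n1 u + n1 v := by
  rw [sub_eq_add_neg]
  exact (n1_add _ _).trans (by rw [n1_neg])

lemma n1_smul (a : ℝ) (u : ι → ℝ) : n1 (a • u) = |a| * n1 u := by
  simp [n1, abs_mul, mul_sum]

lemma n1_option (v : Option ι → ℝ) : n1 v = |v none| + n1 (fun i => v (some i)) := by
  simp [n1, Fintype.sum_option]

lemma n1_prod (v : ι × κ → ℝ) : n1 v = ∑ a, n1 (fun b => v (a, b)) := by
  simp [n1, Fintype.sum_prod_type]

lemma n1_sum (v : ι ⊕ κ → ℝ) :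
    n1 v = n1 (fun a => v (Sum.inl a)) + n1 (fun b => v (Sum.inr b)) := by
  simp [n1, Fintype.sum_sum_type]

lemma scale1 (u v : ι → ℝ) {a b B : ℝ} (ha : 0 < a) (hb : 0 < b) (hv : n1 v ≤ B * b) :
    n1 (a⁻¹ • u - b⁻¹ • v) ≤ (n1 (u - v) + B * |a - b|) / a := by
  have e : a⁻¹ • u - b⁻¹ • v = a⁻¹ • (u - v) + ((b - a) / (a * b)) • v := by
    ext i; simp; field_simp; ring
  rw [e]
  refine (n1_add _ _).trans ?_
  rw [n1_smul, n1_smul, abs_of_pos (inv_pos.2 ha), abs_div, abs_of_pos (mul_pos ha hb),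
    abs_sub_comm b a]
  have : |a - b| / (a * b) * n1 v ≤ |a - b| / (a * b) * (B * b) := by gcongr
  have e2 : (n1 (u - v) + B * |a - b|) / a = a⁻¹ * n1 (u - v) + |a - b| / (a * b) * (B * b) := by
    field_simp
  linarith

lemma scale2 (u v : ι → ℝ) {a b B : ℝ} (ha : 0 < a) (hb : 0 < b) (hv : n1 v ≤ B * b) :
    n1 (u - v) ≤ a * n1 (a⁻¹ • u - b⁻¹ • v) + B * |a - b| := by
  have e : u - v = a • (a⁻¹ • u - b⁻¹ • v) + ((a - b) / b) • v := by
    ext i; simp; field_simp; ring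
  rw [e]
  refine (n1_add _ _).trans ?_
  rw [n1_smul, n1_smul, abs_of_pos ha, abs_div, abs_of_pos hb]
  have : |a - b| / b * n1 v ≤ |a - b| / b * (B * b) := by gcongr
  have e2 : |a - b| / b * (B * b) = B * |a - b| := by field_simp
  linarith

end n1

section cuts
variable {M C : Type} [Fintype C] (χ : C → M → Bool)

noncomputable def rho (x y : M) : ℝ := ∑ c, if χ c x = χ c y then 0 else 1

def sep (X : Finset M) (c : C) : Prop := (∃ x ∈ X, χ c x = true) ∧ ∃ x ∈ X, χ c x = false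

noncomputable def DD (X : Finset M) : ℝ := ∑ c, if sep χ X c then 1 else 0

noncomputable def mm (X : Finset M) : C → ℝ := fun c => if ∀ x ∈ X, χ c x = true then 1 else 0

noncomputable def pt (X : Finset M) (c : C) (β : Bool) : Finset M := X.filter (χ c · = β)

noncomputable def cost (σ : M → M) (X : Finset M) : ℝ := ∑ x ∈ X, rho χ x (σ x)

def bad (σ : M → M) (X : Finset M) (c : C) : Prop := ∃ x ∈ X, χ c x ≠ χ c (σ x)

lemma rho_nonneg (x y : M) : 0 ≤ rho χ x y :=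
  sum_nonneg fun _ _ => by split_ifs <;> norm_num

lemma cost_nonneg (σ : M → M) (X : Finset M) : 0 ≤ cost χ σ X :=
  sum_nonneg fun _ _ => rho_nonneg χ _ _

lemma DD_nonneg (X : Finset M) : 0 ≤ DD χ X :=
  sum_nonneg fun _ _ => by split_ifs <;> norm_num

lemma DD_pos {X : Finset M} {c : C} (h : sep χ X c) : 0 < DD χ X := by
  have : (if sep χ X c then (1 : ℝ) else 0) ≤ DD χ X :=
    single_le_sum (f := fun c => if sep χ X c then (1 : ℝ) else 0)
      (fun _ _ => by split_ifs <;> norm_num) (mem_univ c)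
  rw [if_pos h] at this
  linarith

lemma bad_le (σ : M → M) (X : Finset M) :
    (∑ c, if bad χ σ X c then (1 : ℝ) else 0) ≤ cost χ σ X := by
  unfold cost rho
  rw [sum_comm]
  refine sum_le_sum fun c _ => ?_
  split_ifs with h
  · obtain ⟨x, hx, hne⟩ := h
    have := single_le_sum (f := fun x => if χ c x = χ c (σ x) then (0 : ℝ) else 1)
      (fun _ _ => by split_ifs <;> norm_num) hx
    simpa [hne] using this
  · exact sum_nonneg fun _ _ => by split_ifs <;> norm_num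

variable {χ}

lemma good_ex {σ : M → M} {X Y : Finset M} (hσ : Set.BijOn σ X Y) {c : C} (h : ¬ bad χ σ X c)
    (β : Bool) : (∃ x ∈ X, χ c x = β) ↔ ∃ y ∈ Y, χ c y = β := by
  unfold bad at h
  push Not at h
  constructor
  · rintro ⟨x, hx, e⟩
    exact ⟨σ x, hσ.mapsTo hx, by rw [← h x hx, e]⟩
  · rintro ⟨y, hy, e⟩
    obtain ⟨x, hx, rfl⟩ := hσ.surjOn hy
    exact ⟨x, hx, by rw [h x hx, e]⟩

lemma good_sep {σ : M → M} {X Y : Finset M} (hσ : Set.BijOn σ X Y) {c : C} (h : ¬ bad χ σ X c) :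
    sep χ X c ↔ sep χ Y c := by
  unfold sep
  rw [good_ex hσ h, good_ex hσ h]

lemma good_mm {σ : M → M} {X Y : Finset M} (hσ : Set.BijOn σ X Y) {c : C} (h : ¬ bad χ σ X c) :
    mm χ X c = mm χ Y c := by
  have := good_ex hσ h false
  unfold mm
  have e : (∀ x ∈ X, χ c x = true) ↔ ∀ y ∈ Y, χ c y = true := by
    rw [← not_iff_not]
    push Not
    simpa using this
  simp only [e]

lemma good_pt {σ : M → M} {X Y : Finset M} (hσ : Set.BijOn σ X Y) {c : C} (h : ¬ bad χ σ X c)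
    (β : Bool) : Set.BijOn σ (pt χ X c β) (pt χ Y c β) := by
  unfold bad at h
  push Not at h
  refine ⟨fun x hx => ?_, hσ.injOn.mono (coe_subset.2 (filter_subset _ _)), fun y hy => ?_⟩
  · simp only [pt, coe_filter, Set.mem_ofPred_eq] at hx ⊢
    exact ⟨hσ.mapsTo hx.1, by rw [← h x hx.1, hx.2]⟩
  · simp only [pt, coe_filter, Set.mem_ofPred_eq] at hy
    obtain ⟨x, hx, rfl⟩ := hσ.surjOn hy.1
    refine ⟨x, ?_, rfl⟩
    simp only [pt, coe_filter, Set.mem_ofPred_eq]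
    exact ⟨hx, by rw [h x hx, hy.2]⟩

lemma DD_lip {σ : M → M} {X Y : Finset M} (hσ : Set.BijOn σ X Y) :
    |DD χ X - DD χ Y| ≤ cost χ σ X := by
  refine le_trans ?_ (bad_le χ σ X)
  unfold DD
  rw [← sum_sub_distrib]
  refine (abs_sum_le_sum_abs _ _).trans (sum_le_sum fun c _ => ?_)
  by_cases h : bad χ σ X c
  · rw [if_pos h]; split_ifs <;> norm_num
  · simp [h, good_sep hσ h]

lemma mm_lip {σ : M → M} {X Y : Finset M} (hσ : Set.BijOn σ X Y) :
    n1 (mm χ X - mm χ Y) ≤ cost χ σ X := by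
  refine le_trans ?_ (bad_le χ σ X)
  refine sum_le_sum fun c _ => ?_
  by_cases h : bad χ σ X c
  · rw [if_pos h]; simp only [Pi.sub_apply, mm]; split_ifs <;> norm_num
  · simp [h, good_mm hσ h]

lemma mm_sub {X' X : Finset M} (h : X' ⊆ X) (hne : X'.Nonempty) :
    n1 (mm χ X' - mm χ X) ≤ DD χ X := by
  refine sum_le_sum fun c _ => ?_
  simp only [Pi.sub_apply, mm]
  by_cases hs : sep χ X c
  · rw [if_pos hs]; split_ifs <;> norm_num
  · rw [if_neg hs]
    by_cases h1 : ∀ x ∈ X, χ c x = true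
    · rw [if_pos h1, if_pos fun x hx => h1 x (h hx)]; simp
    · have h2 : ¬ ∀ x ∈ X', χ c x = true := by
        intro h2
        obtain ⟨x, hx⟩ := hne
        push Not at h1
        obtain ⟨y, hy, hy2⟩ := h1
        exact hs ⟨⟨x, h hx, h2 x hx⟩, y, hy, by simpa using hy2⟩
      rw [if_neg h1, if_neg h2]; simp

lemma DD_mono {X' X : Finset M} (h : X' ⊆ X) : DD χ X' ≤ DD χ X := by
  refine sum_le_sum fun c _ => ?_
  by_cases hs : sep χ X' c
  · obtain ⟨⟨x, hx, e⟩, y, hy, e'⟩ := id hs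
    rw [if_pos hs, if_pos ⟨⟨x, h hx, e⟩, y, h hy, e'⟩]
  · rw [if_neg hs]; split_ifs <;> norm_num

lemma rho_eq (x y : M) : rho χ x y = n1 (mm χ {x} - mm χ {y}) := by
  refine sum_congr rfl fun c _ => ?_
  simp only [Pi.sub_apply, mm, mem_singleton, forall_eq]
  cases χ c x <;> cases χ c y <;> simp

lemma rho_le {X Y : Finset M} {x y : M} (hx : x ∈ X) (hy : y ∈ Y) :
    rho χ x y ≤ DD χ X + n1 (mm χ X - mm χ Y) + DD χ Y := by
  have h1 := mm_sub (χ := χ) (singleton_subset_iff.2 hx) (singleton_nonempty x)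
  have h2 := mm_sub (χ := χ) (singleton_subset_iff.2 hy) (singleton_nonempty y)
  rw [n1_sub_comm] at h2
  have e : mm χ {x} - mm χ {y}
      = (mm χ {x} - mm χ X) + (mm χ X - mm χ Y) + (mm χ Y - mm χ {y}) := by ring
  rw [rho_eq, e]
  have h3 := n1_add ((mm χ {x} - mm χ X) + (mm χ X - mm χ Y)) (mm χ Y - mm χ {y})
  have h4 := n1_add (mm χ {x} - mm χ X) (mm χ X - mm χ Y)
  linarith

lemma pt_subset (X : Finset M) (c : C) (β : Bool) : pt χ X c β ⊆ X := filter_subset _ _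

lemma cost_pt (σ : M → M) (X : Finset M) (c : C) (β : Bool) :
    cost χ σ (pt χ X c β) ≤ cost χ σ X :=
  sum_le_sum_of_subset_of_nonneg (pt_subset X c β) fun _ _ _ => rho_nonneg χ _ _

lemma pt_nonempty {X : Finset M} {c : C} (h : sep χ X c) (β : Bool) : (pt χ X c β).Nonempty := by
  obtain ⟨⟨x, hx, e⟩, y, hy, e'⟩ := h
  cases β
  · exact ⟨y, by simp [pt, hy, e']⟩
  · exact ⟨x, by simp [pt, hx, e]⟩

lemma pt_card (X : Finset M) (c : C) : #(pt χ X c false) + #(pt χ X c true) = #X := by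
  have := card_filter_add_card_filter_not (s := X) (fun x => χ c x = false)
  simpa [pt] using this

lemma pt_card_le {X : Finset M} {c : C} (h : sep χ X c) {k : ℕ} (hk : #X ≤ k + 1) (β : Bool) :
    #(pt χ X c β) ≤ k := by
  have h0 := (pt_nonempty h false).card_pos
  have h1 := (pt_nonempty h true).card_pos
  have := pt_card (χ := χ) X c
  cases β <;> omega

lemma exists_bij {X Y : Finset M} (h : #X = #Y) : ∃ σ : M → M, Set.BijOn σ X Y := by
  let e := Finset.equivOfCardEq h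
  refine ⟨fun x => if hx : x ∈ X then (e ⟨x, hx⟩ : M) else x, fun x hx => ?_, fun x hx y hy hxy => ?_,
    fun y hy => ?_⟩
  · have hx' : x ∈ X := hx
    simp [hx']
  · have hx' : x ∈ X := hx
    have hy' : y ∈ X := hy
    simp only [hx', hy', dite_true] at hxy
    have := e.injective (Subtype.ext hxy)
    exact congrArg Subtype.val this
  · refine ⟨e.symm ⟨y, hy⟩, (e.symm ⟨y, hy⟩).2, ?_⟩
    simp [(e.symm ⟨y, hy⟩).2]

lemma glue {X Y : Finset M} {c : C} {τ : Bool → M → M}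
    (h : ∀ β, Set.BijOn (τ β) (pt χ X c β) (pt χ Y c β)) :
    Set.BijOn (fun x => τ (χ c x) x) X Y ∧
      cost χ (fun x => τ (χ c x) x) X = cost χ (τ false) (pt χ X c false)
        + cost χ (τ true) (pt χ X c true) := by
  have hm : ∀ x ∈ X, τ (χ c x) x ∈ pt χ Y c (χ c x) := fun x hx =>
    (h (χ c x)).mapsTo (show x ∈ pt χ X c (χ c x) by simp [pt, hx])
  refine ⟨⟨fun x hx => pt_subset _ _ _ (hm x hx), fun x hx y hy hxy => ?_, fun y hy => ?_⟩, ?_⟩
  · have h1 := (mem_filter.1 (hm x hx)).2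
    have h2 := (mem_filter.1 (hm y hy)).2
    simp only at hxy
    have h3 : χ c x = χ c y := by rw [← h1, ← h2, hxy]
    rw [h3] at hxy
    exact (h (χ c y)).injOn (show x ∈ pt χ X c (χ c y) from mem_filter.2 ⟨hx, h3⟩)
      (show y ∈ pt χ X c (χ c y) from mem_filter.2 ⟨hy, rfl⟩) hxy
  · obtain ⟨x, hx, e⟩ := (h (χ c y)).surjOn
      (show y ∈ pt χ Y c (χ c y) from mem_filter.2 ⟨hy, rfl⟩)
    have hx' := mem_filter.1 hx
    exact ⟨x, hx'.1, by simp only [hx'.2, e]⟩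
  · unfold cost
    rw [← sum_filter_add_sum_filter_not X (fun x => χ c x = false)]
    congr 1
    · exact sum_congr rfl fun x hx => by simp only [(mem_filter.1 hx).2]
    · refine sum_congr (by ext x; simp [pt]) fun x hx => by simp only [(mem_filter.1 hx).2]

end cuts

/-- The inductive statement. -/
def Good (k : ℕ) (A : ℝ) : Prop :=
  ∀ (M C : Type) [Fintype C] (χ : C → M → Bool),
    ∃ (ι : Type) (_ : Fintype ι) (G : Finset M → ι → ℝ),
      (∀ X, #X ≤ k → n1 (G X) ≤ A * DD χ X) ∧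
      (∀ X Y σ, #X ≤ k → Set.BijOn σ (X : Set M) (Y : Finset M) →
        n1 (G X - G Y) ≤ A * cost χ σ X) ∧
      (∀ X Y, #X ≤ k → #X = #Y → ∃ σ, Set.BijOn σ (X : Set M) (Y : Finset M) ∧
        cost χ σ X ≤ A * (n1 (G X - G Y) + n1 (mm χ X - mm χ Y)))

lemma good_zero : Good 0 0 := by
  intro M C _ χ
  refine ⟨Unit, inferInstance, fun _ => 0, fun X _ => by simp [n1], fun X Y σ _ _ => by simp [n1],
    fun X Y hX hXY => ?_⟩
  obtain ⟨σ, hσ⟩ := exists_bij hXY
  have : X = ∅ := card_eq_zero.1 (by omega)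
  exact ⟨σ, hσ, by simp [cost, this]⟩

section step
variable {M C ι : Type} [Fintype C] [Fintype ι] (χ : C → M → Bool) (G : Finset M → ι → ℝ)

noncomputable def Br (X : Finset M) (c : C) : Bool × (C ⊕ ι) → ℝ :=
  fun p => Sum.elim (mm χ (pt χ X c p.1) - mm χ X) (G (pt χ X c p.1)) p.2

noncomputable def HH (X : Finset M) (c : C) : Option (Bool × (C ⊕ ι)) → ℝ :=
  if sep χ X c then
    fun o => o.elim (#(pt χ X c false) : ℝ) ((DD χ X)⁻¹ • Br χ G X c) else 0

noncomputable def GG (X : Finset M) : Option (C × Option (Bool × (C ⊕ ι))) → ℝ :=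
  fun o => o.elim (DD χ X) fun p => HH χ G X p.1 p.2

lemma n1_GG_sub (X Y : Finset M) :
    n1 (GG χ G X - GG χ G Y) = |DD χ X - DD χ Y| + ∑ c, n1 (HH χ G X c - HH χ G Y c) := by
  rw [n1_option, n1_prod]; rfl

lemma n1_GG (X : Finset M) : n1 (GG χ G X) = |DD χ X| + ∑ c, n1 (HH χ G X c) := by
  rw [n1_option, n1_prod]; rfl

lemma n1_Br (X : Finset M) (c : C) : n1 (Br χ G X c) =
    ∑ β, (n1 (mm χ (pt χ X c β) - mm χ X) + n1 (G (pt χ X c β))) := by
  rw [n1_prod]
  refine sum_congr rfl fun β _ => ?_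
  rw [n1_sum]; rfl

lemma n1_Br_sub (X Y : Finset M) (c : C) : n1 (Br χ G X c - Br χ G Y c) =
    ∑ β, (n1 ((mm χ (pt χ X c β) - mm χ X) - (mm χ (pt χ Y c β) - mm χ Y))
      + n1 (G (pt χ X c β) - G (pt χ Y c β))) := by
  rw [n1_prod]
  refine sum_congr rfl fun β _ => ?_
  rw [n1_sum]; rfl

variable {χ G}

lemma n1_HH_sub {X Y : Finset M} {c : C} (hX : sep χ X c) (hY : sep χ Y c) :
    n1 (HH χ G X c - HH χ G Y c) = |(#(pt χ X c false) : ℝ) - #(pt χ Y c false)|
      + n1 ((DD χ X)⁻¹ • Br χ G X c - (DD χ Y)⁻¹ • Br χ G Y c) := by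
  unfold HH
  rw [if_pos hX, if_pos hY, n1_option]; rfl

variable {k : ℕ} {A : ℝ}

lemma Br_le (hA : 0 ≤ A) (ha : ∀ X, #X ≤ k → n1 (G X) ≤ A * DD χ X) {X : Finset M} {c : C}
    (hX : #X ≤ k + 1) (h : sep χ X c) : n1 (Br χ G X c) ≤ (2 * (1 + A)) * DD χ X := by
  rw [n1_Br]
  have : ∀ β, n1 (mm χ (pt χ X c β) - mm χ X) + n1 (G (pt χ X c β)) ≤ (1 + A) * DD χ X := by
    intro β
    have h1 := mm_sub (χ := χ) (pt_subset (χ := χ) X c β) (pt_nonempty h β)
    have h2 := ha _ (pt_card_le h hX β)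
    have h3 := DD_mono (χ := χ) (pt_subset (χ := χ) X c β)
    nlinarith
  rw [Fintype.sum_bool]
  linarith [this true, this false]

lemma HH_le (hA : 0 ≤ A) (ha : ∀ X, #X ≤ k → n1 (G X) ≤ A * DD χ X) {X : Finset M} (c : C)
    (hX : #X ≤ k + 1) :
    n1 (HH χ G X c) ≤ (k + 2 * (1 + A)) * if sep χ X c then 1 else 0 := by
  by_cases h : sep χ X c
  · unfold HH
    rw [if_pos h, if_pos h, n1_option]
    have h1 := Br_le hA ha hX h
    have h2 := DD_pos χ h
    have h3 : (#(pt χ X c false) : ℝ) ≤ k := by exact_mod_cast pt_card_le h hX false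
    have h4 : n1 ((DD χ X)⁻¹ • Br χ G X c) ≤ 2 * (1 + A) := by
      rw [n1_smul, abs_of_pos (inv_pos.2 h2), inv_mul_le_iff₀ h2]; linarith
    simp only [Option.elim_none, Option.elim_some, Nat.abs_cast, mul_one]
    exact add_le_add h3 h4
  · unfold HH
    rw [if_neg h, if_neg h, n1_zero]; simp

lemma GG_a (hA : 0 ≤ A) (ha : ∀ X, #X ≤ k → n1 (G X) ≤ A * DD χ X) {X : Finset M}
    (hX : #X ≤ k + 1) : n1 (GG χ G X) ≤ (1 + (k + 2 * (1 + A))) * DD χ X := by
  rw [n1_GG, abs_of_nonneg (DD_nonneg χ X)]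
  have : ∑ c, n1 (HH χ G X c) ≤ (k + 2 * (1 + A)) * DD χ X := by
    unfold DD
    rw [mul_sum]
    exact sum_le_sum fun c _ => HH_le hA ha c hX
  linarith

lemma GG_b (hA : 0 ≤ A) (ha : ∀ X, #X ≤ k → n1 (G X) ≤ A * DD χ X)
    (hb : ∀ X Y σ, #X ≤ k → Set.BijOn σ (X : Set M) (Y : Finset M) →
        n1 (G X - G Y) ≤ A * cost χ σ X)
    {X Y : Finset M} {σ : M → M} (hX : #X ≤ k + 1) (hσ : Set.BijOn σ X Y) :
    n1 (GG χ G X - GG χ G Y)
      ≤ (1 + 2 * (k + 2 * (1 + A)) + (4 + 2 * A + 2 * (1 + A))) * cost χ σ X := by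
  have hc : #X = #Y := card_nbij σ hσ.mapsTo hσ.injOn hσ.surjOn
  have hY : #Y ≤ k + 1 := hc ▸ hX
  have hδ := cost_nonneg χ σ X
  have hD := DD_lip (χ := χ) hσ
  set δ := cost χ σ X with hδe
  set E := 4 + 2 * A + 2 * (1 + A) with hE
  have hE0 : 0 ≤ E := by positivity
  have key : ∀ c, n1 (HH χ G X c - HH χ G Y c) ≤
      2 * (k + 2 * (1 + A)) * (if bad χ σ X c then 1 else 0)
        + E * δ / DD χ X * (if sep χ X c then 1 else 0) := by
    intro c
    have hDX := DD_nonneg χ X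
    by_cases h : bad χ σ X c
    · rw [if_pos h]
      have h1 := HH_le hA ha c hX
      have h2 := HH_le hA ha c hY
      have h3 := n1_sub (HH χ G X c) (HH χ G Y c)
      have h4 : ∀ Z : Finset M, (k + 2 * (1 + A)) * (if sep χ Z c then (1 : ℝ) else 0)
          ≤ k + 2 * (1 + A) := by
        intro Z
        split_ifs
        · simp
        · simp; positivity
      have h5 : 0 ≤ E * δ / DD χ X * (if sep χ X c then 1 else 0) := by
        split_ifs <;> positivity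
      linarith [h4 X, h4 Y]
    · rw [if_neg h]
      by_cases hs : sep χ X c
      · have hs' := (good_sep hσ h).1 hs
        rw [if_pos hs, n1_HH_sub hs hs']
        have hp := good_pt hσ h
        have hc0 : #(pt χ X c false) = #(pt χ Y c false) :=
          card_nbij σ (hp false).mapsTo (hp false).injOn (hp false).surjOn
        have h1 := scale1 (Br χ G X c) (Br χ G Y c) (DD_pos χ hs) (DD_pos χ hs')
          (Br_le hA ha hY hs')
        have h2 : n1 (Br χ G X c - Br χ G Y c) ≤ (4 + 2 * A) * δ := by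
          rw [n1_Br_sub]
          have : ∀ β, n1 ((mm χ (pt χ X c β) - mm χ X) - (mm χ (pt χ Y c β) - mm χ Y))
              + n1 (G (pt χ X c β) - G (pt χ Y c β)) ≤ (2 + A) * δ := by
            intro β
            have e : (mm χ (pt χ X c β) - mm χ X) - (mm χ (pt χ Y c β) - mm χ Y)
                = (mm χ (pt χ X c β) - mm χ (pt χ Y c β)) - (mm χ X - mm χ Y) := by ring
            have a1 := n1_sub (mm χ (pt χ X c β) - mm χ (pt χ Y c β)) (mm χ X - mm χ Y)
            have a2 := mm_lip (χ := χ) hσ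
            have a3 := mm_lip (χ := χ) (hp β)
            have a4 := cost_pt (χ := χ) σ X c β
            have a5 := hb _ _ σ (pt_card_le hs hX β) (hp β)
            rw [e]
            nlinarith
          rw [Fintype.sum_bool]
          linarith [this true, this false]
        rw [hc0, sub_self, abs_zero, zero_add, mul_zero, zero_add, mul_one]
        refine h1.trans ?_
        gcongr
        nlinarith
      · have hs' : ¬ sep χ Y c := fun h' => hs ((good_sep hσ h).2 h')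
        unfold HH
        rw [if_neg hs, if_neg hs', if_neg hs, sub_self, n1_zero]; simp
  rw [n1_GG_sub]
  have h1 := sum_le_sum fun c (_ : c ∈ univ) => key c
  rw [sum_add_distrib, ← mul_sum, ← mul_sum] at h1
  have h2 := bad_le χ σ X
  have h3 : E * δ / DD χ X * DD χ X ≤ E * δ := by
    by_cases h0 : DD χ X = 0
    · rw [h0]; simp; positivity
    · rw [div_mul_cancel₀ _ h0]
  have h4 : 2 * (k + 2 * (1 + A)) * (∑ c, if bad χ σ X c then (1 : ℝ) else 0)
      ≤ 2 * (k + 2 * (1 + A)) * δ := by gcongr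
  have h5 : (∑ c, if sep χ X c then (1 : ℝ) else 0) = DD χ X := rfl
  rw [h5] at h1
  linarith

lemma GG_c (hA : 0 ≤ A) (ha : ∀ X, #X ≤ k → n1 (G X) ≤ A * DD χ X)
    (hc : ∀ X Y, #X ≤ k → #X = #Y → ∃ σ, Set.BijOn σ (X : Set M) (Y : Finset M) ∧
        cost χ σ X ≤ A * (n1 (G X - G Y) + n1 (mm χ X - mm χ Y)))
    {X Y : Finset M} (hX : #X ≤ k + 1) (hXY : #X = #Y) :
    ∃ σ, Set.BijOn σ (X : Set M) (Y : Finset M) ∧
      cost χ σ X ≤ (3 * (k + 1) + 2 * A * (1 + 2 * (1 + A)))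
        * (n1 (GG χ G X - GG χ G Y) + n1 (mm χ X - mm χ Y)) := by
  have hY : #Y ≤ k + 1 := hXY ▸ hX
  set η := n1 (GG χ G X - GG χ G Y) with hη
  set μ := n1 (mm χ X - mm χ Y) with hμ
  have hη0 : 0 ≤ η := n1_nonneg _
  have hμ0 : 0 ≤ μ := n1_nonneg _
  have e := n1_GG_sub χ G X Y
  have hs0 : 0 ≤ ∑ c, n1 (HH χ G X c - HH χ G Y c) := sum_nonneg fun _ _ => n1_nonneg _
  have hD : |DD χ X - DD χ Y| ≤ η := by linarith
  have hS : ∑ c, n1 (HH χ G X c - HH χ G Y c) ≤ η := by linarith [abs_nonneg (DD χ X - DD χ Y)]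
  have hk : (0 : ℝ) ≤ k := Nat.cast_nonneg k
  by_cases hle : DD χ X ≤ η
  · obtain ⟨σ, hσ⟩ := exists_bij hXY
    refine ⟨σ, hσ, ?_⟩
    have h1 : ∀ x ∈ X, rho χ x (σ x) ≤ 3 * (η + μ) := by
      intro x hx
      have := rho_le (χ := χ) hx (show σ x ∈ Y from hσ.mapsTo hx)
      have := (abs_le.1 hD).1
      linarith
    have h2 : cost χ σ X ≤ #X • (3 * (η + μ)) := sum_le_card_nsmul _ _ _ h1
    have h3 : (#X : ℝ) ≤ k + 1 := by exact_mod_cast hX
    rw [nsmul_eq_mul] at h2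
    have h4 : (#X : ℝ) * (3 * (η + μ)) ≤ (k + 1) * (3 * (η + μ)) := by gcongr
    have h5 : 0 ≤ 2 * A * (1 + 2 * (1 + A)) * (η + μ) := by positivity
    linarith
  · push Not at hle
    have hDp : 0 < DD χ X := by linarith
    have hDD : DD χ X = ∑ _c ∈ univ.filter (sep χ X), (1 : ℝ) := by rw [sum_filter]; rfl
    have hne : (univ.filter (sep χ X)).Nonempty := by
      by_contra h
      rw [not_nonempty_iff_eq_empty] at h
      rw [h] at hDD
      simp at hDD
      linarith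
    obtain ⟨c, hc1, hc2⟩ := exists_le_of_sum_le (f := fun c => n1 (HH χ G X c - HH χ G Y c))
      (g := fun _ => η / DD χ X) hne (by
        have h1 : ∑ _c ∈ univ.filter (sep χ X), η / DD χ X = η := by
          have : ∑ _c ∈ univ.filter (sep χ X), η / DD χ X
              = η / DD χ X * ∑ _c ∈ univ.filter (sep χ X), (1 : ℝ) := by
            rw [mul_sum]; simp
          rw [this, ← hDD]; field_simp
        rw [h1]
        exact (sum_le_sum_of_subset_of_nonneg (subset_univ _) fun _ _ _ => n1_nonneg _).trans hS)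
    have hs : sep χ X c := (mem_filter.1 hc1).2
    have hlt : η / DD χ X < 1 := by rw [div_lt_one hDp]; exact hle
    have hs' : sep χ Y c := by
      by_contra hs'
      have h1 : n1 (HH χ G X c - HH χ G Y c) = n1 (HH χ G X c) := by
        congr 1
        have : HH χ G Y c = 0 := by unfold HH; rw [if_neg hs']
        rw [this, sub_zero]
      have h2 : (1 : ℝ) ≤ n1 (HH χ G X c) := by
        unfold HH
        rw [if_pos hs, n1_option]
        have h3 : (1 : ℝ) ≤ #(pt χ X c false) := by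
          exact_mod_cast (pt_nonempty hs false).card_pos
        simp only [Option.elim_none, Nat.abs_cast]
        linarith [n1_nonneg fun i => (some i).elim (#(pt χ X c false) : ℝ)
          ((DD χ X)⁻¹ • Br χ G X c)]
      linarith
    rw [n1_HH_sub hs hs'] at hc2
    have hn := n1_nonneg ((DD χ X)⁻¹ • Br χ G X c - (DD χ Y)⁻¹ • Br χ G Y c)
    have hc0 : #(pt χ X c false) = #(pt χ Y c false) := by
      have h1 : |(#(pt χ X c false) : ℝ) - #(pt χ Y c false)| < 1 := by linarith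
      have h2 := abs_lt.1 h1
      have h3 : (#(pt χ X c false) : ℝ) < #(pt χ Y c false) + 1 := by linarith
      have h4 : (#(pt χ Y c false) : ℝ) < #(pt χ X c false) + 1 := by linarith
      have h5 : #(pt χ X c false) < #(pt χ Y c false) + 1 := by exact_mod_cast h3
      have h6 : #(pt χ Y c false) < #(pt χ X c false) + 1 := by exact_mod_cast h4
      omega
    have hcβ : ∀ β, #(pt χ X c β) = #(pt χ Y c β) := by
      intro β
      have := pt_card (χ := χ) X c
      have := pt_card (χ := χ) Y c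
      cases β <;> omega
    have h1 := scale2 (Br χ G X c) (Br χ G Y c) hDp (DD_pos χ hs') (Br_le hA ha hY hs')
    have h2 : DD χ X * n1 ((DD χ X)⁻¹ • Br χ G X c - (DD χ Y)⁻¹ • Br χ G Y c) ≤ η := by
      rw [← le_div_iff₀' hDp]
      linarith [abs_nonneg ((#(pt χ X c false) : ℝ) - #(pt χ Y c false))]
    have h3 : n1 (Br χ G X c - Br χ G Y c) ≤ (1 + 2 * (1 + A)) * η := by nlinarith
    choose τ hτ1 hτ2 using fun β => hc _ _ (pt_card_le hs hX β) (hcβ β)
    obtain ⟨g1, g2⟩ := glue (χ := χ) hτ1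
    refine ⟨_, g1, ?_⟩
    rw [g2]
    rw [n1_Br_sub, Fintype.sum_bool] at h3
    have h4 : ∀ β, n1 (mm χ (pt χ X c β) - mm χ (pt χ Y c β))
        ≤ n1 ((mm χ (pt χ X c β) - mm χ X) - (mm χ (pt χ Y c β) - mm χ Y)) + μ := by
      intro β
      have e : mm χ (pt χ X c β) - mm χ (pt χ Y c β)
          = ((mm χ (pt χ X c β) - mm χ X) - (mm χ (pt χ Y c β) - mm χ Y))
            + (mm χ X - mm χ Y) := by ring
      conv_lhs => rw [e]
      exact n1_add _ _
    have h5 : cost χ (τ false) (pt χ X c false) + cost χ (τ true) (pt χ X c true)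
        ≤ A * ((1 + 2 * (1 + A)) * η + 2 * μ) := by
      have := hτ2 false
      have := hτ2 true
      have := h4 false
      have := h4 true
      nlinarith
    have h6 : 0 ≤ A * η := by positivity
    have h7 : 0 ≤ A * μ := by positivity
    have h8 : 0 ≤ A * A * η := by positivity
    have h9 : 0 ≤ A * A * μ := by positivity
    nlinarith

end step

lemma good_all (k : ℕ) : ∃ A, 0 ≤ A ∧ Good k A := by
  induction k with
  | zero => exact ⟨0, le_rfl, good_zero⟩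
  | succ k ih =>
    obtain ⟨A, hA, hG⟩ := ih
    have hk : (0 : ℝ) ≤ k := Nat.cast_nonneg k
    have p1 : 0 ≤ 1 + (k + 2 * (1 + A)) := by positivity
    have p2 : 0 ≤ 1 + 2 * (k + 2 * (1 + A)) + (4 + 2 * A + 2 * (1 + A)) := by positivity
    have p3 : 0 ≤ 3 * (k + 1) + 2 * A * (1 + 2 * (1 + A)) := by positivity
    refine ⟨(1 + (k + 2 * (1 + A))) + (1 + 2 * (k + 2 * (1 + A)) + (4 + 2 * A + 2 * (1 + A)))
      + (3 * (k + 1) + 2 * A * (1 + 2 * (1 + A))), by positivity, fun M C _ χ => ?_⟩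
    obtain ⟨ι, _, G, ha, hb, hc⟩ := hG M C χ
    refine ⟨_, inferInstance, GG χ G, fun X hX => ?_, fun X Y σ hX hσ => ?_, fun X Y hX hXY => ?_⟩
    · refine (GG_a hA ha hX).trans ?_
      have := DD_nonneg χ X
      exact mul_le_mul_of_nonneg_right (by linarith) (by positivity)
    · refine (GG_b hA ha hb hX hσ).trans ?_
      have := cost_nonneg χ σ X
      exact mul_le_mul_of_nonneg_right (by linarith) (by positivity)
    · obtain ⟨σ, hσ, h⟩ := GG_c hA ha hc hX hXY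
      refine ⟨σ, hσ, h.trans ?_⟩
      have := n1_nonneg (GG χ G X - GG χ G Y)
      have := n1_nonneg (mm χ X - mm χ Y)
      exact mul_le_mul_of_nonneg_right (by linarith) (by positivity)

section transport
variable {M : Type} [Fintype M]

lemma hall {ρ : M → M → ℝ} (hρ : ∀ x y, 0 ≤ ρ x y) {X Y : Finset M} {s : ℕ} (hs : 1 ≤ s)
    (hX : #X = s) (hY : #Y = s) {π : M → M → ℝ} (h0 : ∀ x y, 0 ≤ π x y)
    (h1 : ∀ x, ∑ y, π x y = unif X x) (h2 : ∀ y, ∑ x, π x y = unif Y y) :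
    ∃ σ : M → M, Set.BijOn σ X Y ∧
      ∀ x ∈ X, ρ x (σ x) ≤ 2 * s ^ 3 * ∑ x, ∑ y, π x y * ρ x y := by
  have hs0 : (0 : ℝ) < s := by exact_mod_cast hs
  set θ : ℝ := (2 * s ^ 3)⁻¹ with hθ
  have hθ0 : 0 < θ := by positivity
  let t : X → Finset M := fun x => Y.filter fun y => θ ≤ π x y
  have hcol : ∀ (A : Finset X) y, ∑ x ∈ A, π x y ≤ unif Y y := by
    intro A y
    rw [← h2 y]
    have : ∑ x ∈ A, π x y = ∑ x ∈ A.map (Function.Embedding.subtype _), π x y := by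
      rw [sum_map]; rfl
    rw [this]
    exact sum_le_sum_of_subset_of_nonneg (subset_univ _) fun _ _ _ => h0 _ _
  have hH : ∀ A : Finset X, #A ≤ #(A.biUnion t) := by
    intro A
    set N := A.biUnion t with hN
    have a1 : ∀ x ∈ A, (s : ℝ)⁻¹ ≤ ∑ y ∈ N, π x y + s * θ := by
      intro x hx
      have e : (s : ℝ)⁻¹ = ∑ y, π x y := by rw [h1, unif, if_pos x.2, hX]
      have e2 : ∑ y ∈ N, π x y + s * θ
          = ∑ y, ((if y ∈ N then π x y else 0) + if y ∈ Y then θ else 0) := by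
        rw [sum_add_distrib, sum_ite_mem, sum_ite_mem, univ_inter, univ_inter, sum_const, hY,
          nsmul_eq_mul]
      rw [e, e2]
      refine sum_le_sum fun y _ => ?_
      by_cases hyN : y ∈ N
      · rw [if_pos hyN]
        have : 0 ≤ if y ∈ Y then θ else 0 := by split_ifs <;> positivity
        linarith
      · rw [if_neg hyN, zero_add]
        by_cases hyY : y ∈ Y
        · rw [if_pos hyY]
          by_contra hlt
          push Not at hlt
          exact hyN (mem_biUnion.2 ⟨x, hx, mem_filter.2 ⟨hyY, hlt.le⟩⟩)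
        · rw [if_neg hyY]
          have := hcol {x} y
          simpa [unif, hyY] using this
    have a2 := sum_le_sum a1
    rw [sum_add_distrib, sum_comm, sum_const, sum_const, nsmul_eq_mul, nsmul_eq_mul] at a2
    have a3 : ∑ y ∈ N, ∑ x ∈ A, π x y ≤ #N * (s : ℝ)⁻¹ := by
      rw [← nsmul_eq_mul]
      refine sum_le_card_nsmul _ _ _ fun y _ => (hcol A y).trans ?_
      unfold unif
      split_ifs
      · rw [hY]
      · positivity
    have a4 : (#A : ℝ) ≤ s := by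
      have := card_le_univ A
      rw [Fintype.card_coe, hX] at this
      exact_mod_cast this
    have a5 : (#A : ℝ) * (s * θ) ≤ s * (s * θ) := by gcongr
    have a6 : (s : ℝ) * (s * θ) = (1 / 2) * (s : ℝ)⁻¹ := by rw [hθ]; field_simp
    have a7 : (#A : ℝ) * (s : ℝ)⁻¹ ≤ (#N + 1 / 2) * (s : ℝ)⁻¹ := by linarith
    have a8 : (#A : ℝ) ≤ #N + 1 / 2 := le_of_mul_le_mul_right a7 (by positivity)
    have a9 : (#A : ℝ) < #N + 1 := by linarith
    have : #A < #N + 1 := by exact_mod_cast a9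
    omega
  obtain ⟨f, hf, hft⟩ := (Finset.all_card_le_biUnion_card_iff_exists_injective t).1 hH
  have hm : Set.MapsTo (fun x => if hx : x ∈ X then f ⟨x, hx⟩ else x) X Y := by
    intro x hx
    have hx' : x ∈ X := hx
    simp only [hx', dite_true]
    exact (mem_filter.1 (hft ⟨x, hx'⟩)).1
  have hi : Set.InjOn (fun x => if hx : x ∈ X then f ⟨x, hx⟩ else x) X := by
    intro x hx y hy hxy
    have hx' : x ∈ X := hx
    have hy' : y ∈ X := hy
    simp only [hx', hy', dite_true] at hxy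
    exact congrArg Subtype.val (hf hxy)
  refine ⟨_, ⟨hm, hi, surjOn_of_injOn_of_card_le _ hm hi (by omega)⟩, fun x hx => ?_⟩
  simp only [hx, dite_true]
  have b1 : θ ≤ π x (f ⟨x, hx⟩) := (mem_filter.1 (hft ⟨x, hx⟩)).2
  have b2 : π x (f ⟨x, hx⟩) * ρ x (f ⟨x, hx⟩) ≤ ∑ y, π x y * ρ x y :=
    single_le_sum (f := fun y => π x y * ρ x y) (fun y _ => mul_nonneg (h0 _ _) (hρ _ _))
      (mem_univ _)
  have b3 : ∑ y, π x y * ρ x y ≤ ∑ x, ∑ y, π x y * ρ x y :=
    single_le_sum (f := fun x => ∑ y, π x y * ρ x y)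
      (fun x _ => sum_nonneg fun y _ => mul_nonneg (h0 _ _) (hρ _ _)) (mem_univ _)
  have b4 : θ * ρ x (f ⟨x, hx⟩) ≤ ∑ x, ∑ y, π x y * ρ x y := by
    have := mul_le_mul_of_nonneg_right b1 (hρ x (f ⟨x, hx⟩))
    linarith
  rw [hθ, inv_mul_le_iff₀ (by positivity)] at b4
  exact b4

lemma coupling (ρ : M → M → ℝ) {X Y : Finset M} {σ : M → M} (hσ : Set.BijOn σ X Y) :
    ∃ π : M → M → ℝ, (∀ x y, 0 ≤ π x y) ∧ (∀ x, ∑ y, π x y = unif X x) ∧
      (∀ y, ∑ x, π x y = unif Y y) ∧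
      (#X : ℝ)⁻¹ * ∑ x ∈ X, ρ x (σ x) = ∑ x, ∑ y, π x y * ρ x y := by
  have hc : #X = #Y := card_nbij σ hσ.mapsTo hσ.injOn hσ.surjOn
  refine ⟨fun x y => if σ x = y then unif X x else 0, fun x y => ?_, fun x => by simp, fun y => ?_,
    ?_⟩
  · simp only [unif]
    split_ifs <;> positivity
  · by_cases hy : y ∈ Y
    · obtain ⟨x0, hx0, rfl⟩ := hσ.surjOn hy
      have hx0' : x0 ∈ X := hx0
      rw [sum_eq_single x0]
      · simp [unif, hx0', hy, hc]
      · intro x _ hne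
        by_cases hx : x ∈ X
        · exact if_neg fun h => hne (hσ.injOn hx hx0 h)
        · simp [unif, hx]
      · simp
    · rw [unif, if_neg hy]
      refine sum_eq_zero fun x _ => ?_
      by_cases hx : x ∈ X
      · refine if_neg ?_
        rintro rfl
        exact hy (hσ.mapsTo hx)
      · simp [unif, hx]
  · simp [unif, mul_sum]

lemma embed (s : ℕ) (hs : 1 ≤ s) : ∃ f : ℝ, 1 ≤ f ∧ ∀ (M : Type) [Fintype M] (ρ : M → M → ℝ)
    (C : Type) [Fintype C] (χ : C → M → Bool) (a : ℝ), 0 < a → (∀ x y, 0 ≤ ρ x y) →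
    (∀ x y, a * ρ x y ≤ rho χ x y) → (∀ x y, rho χ x y ≤ 5 * a * ρ x y) →
    ∃ (ι : Type) (_ : Fintype ι) (F : Finset M → ι → ℝ) (r : ℝ), 0 < r ∧
      ∀ X Y, #X = s → #Y = s → r * W1 ρ (unif X) (unif Y) ≤ n1 (F X - F Y) ∧
        n1 (F X - F Y) ≤ f * r * W1 ρ (unif X) (unif Y) := by
  obtain ⟨A, hA, hG⟩ := good_all s
  have hs1 : (1 : ℝ) ≤ s := by exact_mod_cast hs
  refine ⟨(A + 1) * (A + 1) * (10 * s ^ 4), ?_, fun M _ ρ C _ χ a ha hρ hlo hup => ?_⟩
  · have : (1 : ℝ) ≤ s ^ 4 := one_le_pow₀ hs1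
    have : 1 ≤ (A + 1) * (A + 1) := by nlinarith
    nlinarith
  obtain ⟨ι, _, G, -, hb, hc⟩ := hG M C χ
  refine ⟨ι ⊕ C, inferInstance, fun X => Sum.elim (G X) (mm χ X), a / (A + 1), by positivity,
    fun X Y hX hY => ?_⟩
  have e : n1 (Sum.elim (G X) (mm χ X) - Sum.elim (G Y) (mm χ Y))
      = n1 (G X - G Y) + n1 (mm χ X - mm χ Y) := by rw [n1_sum]; rfl
  rw [e]
  set η := n1 (G X - G Y) + n1 (mm χ X - mm χ Y) with hη
  have hη0 : 0 ≤ η := add_nonneg (n1_nonneg _) (n1_nonneg _)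
  obtain ⟨σ, hσ, hcost⟩ := hc X Y hX.le (hX.trans hY.symm)
  obtain ⟨π, p0, p1, p2, p3⟩ := coupling ρ hσ
  constructor
  · have h1 : W1 ρ (unif X) (unif Y) ≤ (#X : ℝ)⁻¹ * ∑ x ∈ X, ρ x (σ x) := by
      refine csInf_le ⟨0, ?_⟩ ⟨π, p0, p1, p2, p3⟩
      rintro w ⟨π', q0, -, -, rfl⟩
      exact sum_nonneg fun x _ => sum_nonneg fun y _ => mul_nonneg (q0 _ _) (hρ _ _)
    have h2 : a * ∑ x ∈ X, ρ x (σ x) ≤ cost χ σ X := by
      rw [mul_sum]; exact sum_le_sum fun x _ => hlo _ _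
    have h3 : 0 ≤ ∑ x ∈ X, ρ x (σ x) := sum_nonneg fun _ _ => hρ _ _
    have h4 : (#X : ℝ)⁻¹ ≤ 1 := by rw [hX]; exact inv_le_one_of_one_le₀ hs1
    have h5 : W1 ρ (unif X) (unif Y) ≤ ∑ x ∈ X, ρ x (σ x) := by nlinarith
    rw [div_mul_eq_mul_div, div_le_iff₀ (by positivity)]
    nlinarith
  · have hK : 0 < (A + 1) * (A + 1) * (10 * (s : ℝ) ^ 4) * (a / (A + 1)) := by positivity
    rw [← div_le_iff₀' hK]
    refine le_csInf ⟨_, π, p0, p1, p2, rfl⟩ ?_
    rintro w ⟨π', q0, q1, q2, hw⟩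
    obtain ⟨τ, hτ, hτ2⟩ := hall hρ hs hX hY q0 q1 q2
    rw [← hw] at hτ2
    have h1 := hb X Y τ hX.le hτ
    have h2 := mm_lip (χ := χ) hτ
    have h3 : cost χ τ X ≤ #X • (5 * a * (2 * s ^ 3 * w)) := by
      refine sum_le_card_nsmul _ _ _ fun x hx => (hup _ _).trans ?_
      have := hτ2 x hx
      gcongr
    rw [hX, nsmul_eq_mul] at h3
    rw [div_le_iff₀' hK]
    calc η ≤ (A + 1) * cost χ τ X := by linarith
      _ ≤ (A + 1) * (s * (5 * a * (2 * s ^ 3 * w))) := by gcongr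
      _ = _ := by field_simp; ring

lemma count_cuts (L a b : ℤ) (ha : |a| ≤ L) (hb : |b| ≤ L) :
    (∑ t : Finset.Icc (-L) L, if decide (a ≤ t.1) = decide (b ≤ t.1) then (0 : ℝ) else 1)
      = |(a : ℝ) - b| := by
  wlog h : a ≤ b generalizing a b
  · have := this b a hb ha (by omega)
    rw [abs_sub_comm, ← this]
    exact sum_congr rfl fun t _ => by simp only [eq_comm]
  rw [sum_coe_sort (Finset.Icc (-L) L)
    (fun t => if decide (a ≤ t) = decide (b ≤ t) then (0 : ℝ) else 1)]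
  have h1 := abs_le.1 ha
  have h2 := abs_le.1 hb
  have e : ∀ t ∈ Finset.Icc (-L) L, (if decide (a ≤ t) = decide (b ≤ t) then (0 : ℝ) else 1)
      = if t ∈ Finset.Ico a b then 1 else 0 := by
    intro t _
    by_cases c1 : a ≤ t <;> by_cases c2 : b ≤ t <;> simp [c1, c2] <;> omega
  rw [sum_congr rfl e, sum_ite_mem, inter_eq_right.2, sum_const, Int.card_Ico, nsmul_eq_mul,
    mul_one]
  · have h3 : ((b - a).toNat : ℤ) = b - a := Int.toNat_of_nonneg (by omega)
    have h4 : ((b - a).toNat : ℝ) = b - a := by exact_mod_cast h3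
    have h5 : (a : ℝ) ≤ b := by exact_mod_cast h
    rw [h4, abs_sub_comm, abs_of_nonneg (by linarith)]
  · intro t ht
    simp only [mem_Ico, mem_Icc] at ht ⊢
    omega

lemma cuts_of_maps {J : Type} [Fintype J] (φ : J → M → ℤ) :
    ∃ (C : Type) (_ : Fintype C) (χ : C → M → Bool),
      ∀ x y, rho χ x y = ∑ j, |(φ j x : ℝ) - φ j y| := by
  set L : ℤ := ∑ j, ∑ x, |φ j x| with hL
  have hb : ∀ j x, |φ j x| ≤ L := by
    intro j x
    have h1 : |φ j x| ≤ ∑ x, |φ j x| :=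
      single_le_sum (f := fun x => |φ j x|) (fun _ _ => abs_nonneg _) (mem_univ x)
    have h2 : ∑ x, |φ j x| ≤ L :=
      single_le_sum (f := fun j => ∑ x, |φ j x|) (fun _ _ => sum_nonneg fun _ _ => abs_nonneg _)
        (mem_univ j)
    omega
  refine ⟨J × Finset.Icc (-L) L, inferInstance, fun c x => decide (φ c.1 x ≤ c.2.1),
    fun x y => ?_⟩
  unfold rho
  rw [Fintype.sum_prod_type]
  exact sum_congr rfl fun j _ => by
    convert count_cuts L _ _ (hb j x) (hb j y)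

end transport

def sg (b : Bool) : ℤ := if b then 1 else -1

lemma moments (d : ℕ) (v : Fin d → ℝ) :
    ∑ ε : Fin d → Bool, (∑ i, (sg (ε i) : ℝ) * v i) ^ 2 = 2 ^ d * ∑ i, v i ^ 2 ∧
    ∑ ε : Fin d → Bool, (∑ i, (sg (ε i) : ℝ) * v i) ^ 4 ≤ 3 * 2 ^ d * (∑ i, v i ^ 2) ^ 2 := by
  induction d with
  | zero => simp
  | succ d ih =>
    obtain ⟨h2, h4⟩ := ih fun i => v i.succ
    have key : ∀ g : ℝ → ℝ, ∑ ε : Fin (d + 1) → Bool, g (∑ i, (sg (ε i) : ℝ) * v i)
        = ∑ ε : Fin d → Bool, (g (v 0 + ∑ i, (sg (ε i) : ℝ) * v i.succ)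
          + g (-v 0 + ∑ i, (sg (ε i) : ℝ) * v i.succ)) := by
      intro g
      rw [← (Fin.consEquiv fun _ => Bool).sum_comp, Fintype.sum_prod_type, Fintype.sum_bool,
        sum_add_distrib]
      simp [Fin.consEquiv, Fin.sum_univ_succ, sg]
    rw [key (· ^ 2), key (· ^ 4), Fin.sum_univ_succ]
    have e2 : ∀ S : ℝ, (v 0 + S) ^ 2 + (-v 0 + S) ^ 2 = 2 * v 0 ^ 2 + 2 * S ^ 2 := by
      intro S; ring
    have e4 : ∀ S : ℝ, (v 0 + S) ^ 4 + (-v 0 + S) ^ 4
        = 2 * v 0 ^ 4 + 12 * v 0 ^ 2 * S ^ 2 + 2 * S ^ 4 := by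
      intro S; ring
    simp only [e2, e4, sum_add_distrib, ← mul_sum, sum_const, card_univ, Fintype.card_fun,
      Fintype.card_bool, Fintype.card_fin, nsmul_eq_mul]
    rw [h2]
    push_cast
    have p : (0 : ℝ) ≤ 2 ^ d * v 0 ^ 4 := by positivity
    constructor
    · ring
    · rw [pow_succ (2 : ℝ) d]; nlinarith

lemma khin (d : ℕ) (v : Fin d → ℝ) :
    (2 / 9 * 2 ^ d) * √(∑ i, v i ^ 2) ≤ ∑ ε : Fin d → Bool, |∑ i, (sg (ε i) : ℝ) * v i| ∧
    ∑ ε : Fin d → Bool, |∑ i, (sg (ε i) : ℝ) * v i| ≤ 5 * (2 / 9 * 2 ^ d) * √(∑ i, v i ^ 2) := by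
  obtain ⟨h2, h4⟩ := moments d v
  have hQ : 0 ≤ ∑ i, v i ^ 2 := sum_nonneg fun _ _ => sq_nonneg _
  set σ := √(∑ i, v i ^ 2) with hσ
  have hσ2 : ∑ i, v i ^ 2 = σ ^ 2 := (Real.sq_sqrt hQ).symm
  rw [hσ2] at h2 h4
  set S : (Fin d → Bool) → ℝ := fun ε => ∑ i, (sg (ε i) : ℝ) * v i with hS
  change _ ≤ ∑ ε, |S ε| ∧ ∑ ε, |S ε| ≤ _
  change ∑ ε, S ε ^ 2 = _ at h2
  change ∑ ε, S ε ^ 4 ≤ _ at h4
  have hp : (0 : ℝ) < 2 ^ d := by positivity
  rcases (Real.sqrt_nonneg (∑ i, v i ^ 2)).eq_or_lt with h0 | h0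
  · rw [← hσ] at h0
    rw [← h0] at h2 ⊢
    have : ∀ ε, S ε = 0 := by
      intro ε
      have h3 := (sum_eq_zero_iff_of_nonneg fun ε _ => sq_nonneg (S ε)).1 (by simpa using h2) ε
        (mem_univ _)
      simpa using h3
    simp [this]
  · rw [← hσ] at h0
    constructor
    · have a1 : ∀ ε, 9 * σ ^ 2 * S ε ^ 2 ≤ 27 * σ ^ 3 * |S ε| + S ε ^ 4 := by
        intro ε
        have e1 : S ε ^ 2 = |S ε| ^ 2 := (sq_abs _).symm
        have e2 : S ε ^ 4 = |S ε| ^ 4 := by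
          rw [show S ε ^ 4 = (S ε ^ 2) ^ 2 by ring, e1]; ring
        rw [e1, e2]
        have hx := abs_nonneg (S ε)
        generalize |S ε| = x at hx
        rcases le_total x (3 * σ) with h | h
        · have : 0 ≤ 9 * σ ^ 2 * x * (3 * σ - x) := by
            have : 0 ≤ 3 * σ - x := by linarith
            positivity
          nlinarith [pow_nonneg hx 4]
        · have : 0 ≤ x ^ 2 * ((x - 3 * σ) * (x + 3 * σ)) := by
            have : 0 ≤ x - 3 * σ := by linarith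
            positivity
          have : 0 ≤ σ ^ 3 * x := by positivity
          nlinarith
      have a2 := sum_le_sum fun ε (_ : ε ∈ univ) => a1 ε
      rw [sum_add_distrib, ← mul_sum, ← mul_sum, h2] at a2
      have a3 : σ ^ 3 * (2 / 9 * 2 ^ d * σ) ≤ σ ^ 3 * ∑ ε, |S ε| := by nlinarith
      exact le_of_mul_le_mul_left a3 (by positivity)
    · have a1 : ∀ ε, 2 * σ * |S ε| ≤ S ε ^ 2 + σ ^ 2 := by
        intro ε
        nlinarith [sq_nonneg (|S ε| - σ), sq_abs (S ε)]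
      have a2 := sum_le_sum fun ε (_ : ε ∈ univ) => a1 ε
      rw [sum_add_distrib, ← mul_sum, h2] at a2
      simp only [sum_const, card_univ, Fintype.card_fun, Fintype.card_bool, Fintype.card_fin,
        nsmul_eq_mul] at a2
      push_cast at a2
      have a4 : 0 < 2 ^ d * σ ^ 2 := by positivity
      have a3 : σ * ∑ ε, |S ε| ≤ σ * (5 * (2 / 9 * 2 ^ d) * σ) := by nlinarith
      exact le_of_mul_le_mul_left a3 h0

open MeasureTheory in
lemma toL1 {ι : Type} [Fintype ι] :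
    ∃ T : (ι → ℝ) → Lp ℝ 1 (volume : Measure ℝ), ∀ u v, ‖T u - T v‖ = n1 (u - v) := by
  let e : ι → ℕ := fun i => (Fintype.equivFin ι i : ℕ)
  have he : Function.Injective e := fun i j h => (Fintype.equivFin ι).injective (Fin.ext h)
  let I : ι → Set ℝ := fun i => Set.Ico (e i : ℝ) (e i + 1)
  have hI : ∀ i (c : ℝ), Integrable ((I i).indicator fun _ => c) := fun i c =>
    (integrable_indicator_iff measurableSet_Ico).2 (integrableOn_const (by simp [I]))
  let g : (ι → ℝ) → ℝ → ℝ := fun u t => ∑ i, (I i).indicator (fun _ => u i) t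
  have hg : ∀ u, Integrable (g u) := fun u => integrable_finsetSum _ fun i _ => hI i _
  refine ⟨fun u => (hg u).toL1 _, fun u v => ?_⟩
  rw [← Integrable.toL1_sub, L1.norm_of_fun_eq_integral_norm]
  have h1 : ∀ t, ‖(g u - g v) t‖ = g (fun i => |u i - v i|) t := by
    intro t
    by_cases h : ∃ i, t ∈ I i
    · obtain ⟨i, hi⟩ := h
      have h2 : ∀ w : ι → ℝ, g w t = w i := by
        intro w
        simp only [g]
        rw [sum_eq_single i]
        · simp [hi]
        · intro j _ hj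
          refine Set.indicator_of_notMem (fun hj' => hj (he ?_)) _
          have a1 : (e j : ℝ) < e i + 1 := hj'.1.trans_lt hi.2
          have a2 : (e i : ℝ) < e j + 1 := hi.1.trans_lt hj'.2
          have a3 : e j < e i + 1 := by exact_mod_cast a1
          have a4 : e i < e j + 1 := by exact_mod_cast a2
          omega
        · simp
      simp [h2]
    · push Not at h
      simp [g, h]
  simp only [h1, g]
  rw [integral_finsetSum _ fun i _ => hI i _]
  refine sum_congr rfl fun i _ => ?_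
  rw [integral_indicator measurableSet_Ico]
  simp [I]

open MeasureTheory in
theorem result : ∃ f : ℕ → ℝ, (∀ s, 1 ≤ f s) ∧ ∀ (Δ d s : ℕ), 1 ≤ s →
    ∀ ρ : (Fin d → Fin Δ) → (Fin d → Fin Δ) → ℝ, (ρ = l1 ∨ ρ = l2) →
      ∃ (F : Finset (Fin d → Fin Δ) → Lp ℝ 1 (volume : Measure ℝ)) (r : ℝ), 0 < r ∧
        ∀ X Y : Finset (Fin d → Fin Δ), X.card = s → Y.card = s →
          r * W1 ρ (unif X) (unif Y) ≤ ‖F X - F Y‖ ∧
          ‖F X - F Y‖ ≤ f s * r * W1 ρ (unif X) (unif Y) := by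
  choose f hf1 hf using fun s : ℕ => embed (s + 1) (by omega)
  refine ⟨fun s => f (s - 1), fun s => hf1 _, fun Δ d s hs ρ hρ => ?_⟩
  obtain ⟨s, rfl⟩ : ∃ s', s = s' + 1 := ⟨s - 1, by omega⟩
  simp only [Nat.add_sub_cancel]
  suffices h : ∃ (ι : Type) (_ : Fintype ι) (F : Finset (Fin d → Fin Δ) → ι → ℝ) (r : ℝ), 0 < r ∧
      ∀ X Y, #X = s + 1 → #Y = s + 1 → r * W1 ρ (unif X) (unif Y) ≤ n1 (F X - F Y) ∧
        n1 (F X - F Y) ≤ f s * r * W1 ρ (unif X) (unif Y) by
    obtain ⟨ι, _, F, r, hr, h⟩ := h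
    obtain ⟨T, hT⟩ := toL1 (ι := ι)
    exact ⟨fun X => T (F X), r, hr, fun X Y hX hY => by rw [hT]; exact h X Y hX hY⟩
  rcases hρ with rfl | rfl
  · obtain ⟨C, _, χ, h⟩ := cuts_of_maps (M := Fin d → Fin Δ) fun (i : Fin d) x => ((x i : ℕ) : ℤ)
    have h' : ∀ x y, rho χ x y = l1 x y := fun x y => by rw [h]; simp [l1]
    have h0 : ∀ x y : Fin d → Fin Δ, 0 ≤ l1 x y := fun x y => sum_nonneg fun _ _ => abs_nonneg _
    exact hf s _ l1 C χ 1 one_pos h0 (fun x y => by rw [h', one_mul])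
      fun x y => by rw [h']; linarith [h0 x y]
  · obtain ⟨C, _, χ, h⟩ := cuts_of_maps (M := Fin d → Fin Δ)
      fun (ε : Fin d → Bool) x => ∑ i, sg (ε i) * ((x i : ℕ) : ℤ)
    have h' : ∀ x y, rho χ x y
        = ∑ ε : Fin d → Bool, |∑ i, (sg (ε i) : ℝ) * (((x i : ℕ) : ℝ) - (y i : ℕ))| := by
      intro x y
      rw [h]
      refine sum_congr rfl fun ε _ => ?_
      push_cast
      rw [← sum_sub_distrib]
      simp only [mul_sub]
    exact hf s _ l2 C χ (2 / 9 * 2 ^ d) (by positivity) (fun x y => Real.sqrt_nonneg _)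
      (fun x y => by rw [h']; exact (khin d _).1) fun x y => by rw [h']; exact (khin d _).2

end Pool.Agent.Results.MP_12e089_an.Bounded
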